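import Pool.Agent.H596R2.D3.Sat

/-!
The bounds for `k`-SAT.
-/

namespace Pool.Agent.H596R2.D3

open Finset Classical

theorem card_clause (n k : ℕ) : Fintype.card (Clause n k) ≤ (2 * n + 1) ^ k := by
  let F : (Fin k → Option (Fin n × Bool)) → Clause n k := fun f =>
    ⟨univ.filter (fun l => ∃ i, f i = some l), by
      have : (univ.filter (fun l => ∃ i, f i = some l)).card ≤
          (univ.image f : Finset (Option (Fin n × Bool))).card := by
        apply card_le_card_of_injOn some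
        · intro l hl
          simp only [coe_filter, mem_univ, true_and, Set.mem_ofPred_eq] at hl
          obtain ⟨i, hi⟩ := hl
          simp only [coe_image, coe_univ, Set.image_univ, Set.mem_range]
          exact ⟨i, hi⟩
        · intro a _ b _ h
          exact Option.some_injective _ h
      refine this.trans (card_image_le.trans ?_)
      rw [card_univ, Fintype.card_fin]⟩
  have hF : Function.Surjective F := by
    rintro ⟨c, hc⟩
    let e := c.equivFin
    refine ⟨fun i => if h : i.val < c.card then some (e.symm ⟨i.val, h⟩).1 else none, ?_⟩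
    apply Subtype.ext
    ext l
    simp only [F, mem_filter, mem_univ, true_and]
    constructor
    · rintro ⟨i, hi⟩
      split_ifs at hi with h
      · rw [← Option.some_injective _ hi]
        exact (e.symm ⟨i.val, h⟩).2
    · intro hl
      have h1 := (e ⟨l, hl⟩).isLt
      refine ⟨⟨(e ⟨l, hl⟩).val, by omega⟩, ?_⟩
      simp [h1]
  have h1 := Fintype.card_le_of_surjective F hF
  refine h1.trans ?_
  rw [Fintype.card_fun, Fintype.card_option, Fintype.card_prod, Fintype.card_bool,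
    Fintype.card_fin, Fintype.card_fin]
  rw [mul_comm n 2]

theorem two_pow_le {p g m : ℕ} (hm : 1 ≤ m) (h : p ≤ m * g) : 2 * p ^ m ≤ (p + g) ^ m := by
  obtain ⟨j, rfl⟩ : ∃ j, m = j + 1 := ⟨m - 1, by omega⟩
  have key : ∀ j : ℕ, p ^ (j + 1) + (j + 1) * g * p ^ j ≤ (p + g) ^ (j + 1) := by
    intro j
    induction j with
    | zero => simp
    | succ j ih =>
      calc p ^ (j + 1 + 1) + (j + 1 + 1) * g * p ^ (j + 1)
          ≤ (p ^ (j + 1) + (j + 1) * g * p ^ j) * (p + g) := by ring_nf; nlinarith [Nat.zero_le (p ^ j * g ^ 2 * j), Nat.zero_le (p ^ j * g ^ 2)]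
        _ ≤ (p + g) ^ (j + 1) * (p + g) := Nat.mul_le_mul_right _ ih
        _ = (p + g) ^ (j + 1 + 1) := by rw [pow_succ (p + g) (j + 1)]
  refine le_trans ?_ (key j)
  have : p * p ^ j ≤ (j + 1) * g * p ^ j := Nat.mul_le_mul_right _ h
  calc 2 * p ^ (j + 1) = p ^ (j + 1) + p * p ^ j := by ring
    _ ≤ _ := Nat.add_le_add_left this _

/-- Circuits with an AND output gate. -/
theorem and_bound {n k m : ℕ} (hk : 3 ≤ k) (hN : (2 * n + 1) ^ k ≤ 2 ^ n) (hm : 1 ≤ m)
    (hmn : n ≤ m ^ 3) (hn : 5 * m ^ 2 + 7 ≤ n) (C : Circuit (Clause n k) 3) (hC : C.Decides)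
    (hout : C.conj C.out = true) : 2 ^ (n - (5 * m ^ 2 + 5)) ≤ C.size := by
  by_contra hlt
  push Not at hlt
  set r := m ^ 2 + 1 with hr
  set g := m ^ 2 with hg
  obtain ⟨p, hp⟩ : ∃ p, n = 4 * r + 2 + g + p := ⟨n - (4 * r + 2 + g), by omega⟩
  have hp1 : 1 ≤ p := by omega
  obtain ⟨X, hX, hsem⟩ := emb1 (n := n) (k := k) (r := r) (b := p + g) hk (by omega)
  have hsize : C.size < 2 ^ (p + 1) := by
    have : n - (5 * m ^ 2 + 5) = p + 1 := by omega
    rwa [this] at hlt
  have hf : ∀ w, C.Ov C.out (X w) ↔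
      ∀ i, ∃ j, w ((i, j), false) = true ∧ w ((i, j), true) = true := by
    intro w
    rw [← hsem w]
    unfold Circuit.Ov
    rw [hC (X w), hout]
    simp
  have h1 := lower C X hX p hp1 hsize hf
  rw [Fintype.card_prod, Fintype.card_fin, Fintype.card_fin] at h1
  have h2 : 2 * p ^ m ≤ (p + g) ^ m := by
    apply two_pow_le hm
    calc p ≤ n := by omega
      _ ≤ m ^ 3 := hmn
      _ = m * g := by rw [hg]; ring
  have h3 : m * (n + 2) ≤ r * r := by
    calc m * (n + 2) ≤ m * (m ^ 3 + 2) := Nat.mul_le_mul_left _ (by omega)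
      _ ≤ r * r := by rw [hr]; nlinarith
  obtain ⟨t, ht⟩ : ∃ t, r * r = m * (n + 2) + t := ⟨r * r - m * (n + 2), by omega⟩
  have h4 : 2 ^ (n + 2) * p ^ (r * r) ≤ (p + g) ^ (r * r) := by
    rw [ht, pow_add p, pow_add (p + g), pow_mul p, pow_mul (p + g)]
    calc 2 ^ (n + 2) * ((p ^ m) ^ (n + 2) * p ^ t) = (2 * p ^ m) ^ (n + 2) * p ^ t := by
          rw [mul_pow]; ring
      _ ≤ ((p + g) ^ m) ^ (n + 2) * (p + g) ^ t :=
          Nat.mul_le_mul (Nat.pow_le_pow_left h2 _) (Nat.pow_le_pow_left (by omega) _)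
  have h5 : 2 ^ (n + 2) * p ^ (r * r) ≤
      (2 * Fintype.card (Clause n k) + 2 * C.size) * p ^ (r * r) := h4.trans h1
  have h6 : 2 ^ (n + 2) ≤ 2 * Fintype.card (Clause n k) + 2 * C.size :=
    Nat.le_of_mul_le_mul_right h5 (by positivity)
  have h7 : Fintype.card (Clause n k) ≤ 2 ^ n := (card_clause n k).trans hN
  have h8 : 2 ^ (p + 1) ≤ 2 ^ n := Nat.pow_le_pow_right (by norm_num) (by omega)
  have h9 : 2 ^ (n + 2) = 4 * 2 ^ n := by rw [pow_add]; ring
  omega

/-- Circuits with an OR output gate. -/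
theorem or_bound {n m a r : ℕ} (hm : 2 ≤ m) (ha : 2 ≤ a) (hN : 2 * (2 * n + 1) ^ (m + 1) ≤ 2 ^ a)
    (har : 4 * a ≤ r ^ (m + 1))
    (hn : a * ((m + 1) * r) + (a * ((m + 1) * (r + 1)) + a * r) ≤ n)
    (C : Circuit (Clause n (m + 1)) 3) (hC : C.Decides)
    (hout : C.conj C.out = false) : 2 ^ a ≤ C.size := by
  by_contra hlt
  push Not at hlt
  obtain ⟨X, hX, hsem⟩ := emb2 (n := n) (m := m) (a := a) (r := r) hm hn
  have hf : ∀ w, C.Ov C.out (X w) ↔
      ∀ i, ∃ j, w ((i, j), false) = true ∧ w ((i, j), true) = true := by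
    intro w
    rw [← hsem w]
    unfold Circuit.Ov
    rw [hC (X w), hout]
    simp
  have h1 := lower C X hX a (by omega)
    (hlt.trans_le (Nat.pow_le_pow_right (by norm_num) (by omega))) hf
  rw [Fintype.card_fin, Fintype.card_fun, Fintype.card_fin, Fintype.card_fin] at h1
  have h4 : 4 ^ a * a ^ a ≤ (r ^ (m + 1)) ^ a := by
    rw [← mul_pow]
    exact Nat.pow_le_pow_left har _
  have h6 : 4 ^ a ≤ 2 * Fintype.card (Clause n (m + 1)) + 2 * C.size :=
    Nat.le_of_mul_le_mul_right (h4.trans h1) (by positivity)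
  have h7 : 2 * Fintype.card (Clause n (m + 1)) ≤ 2 ^ a :=
    (Nat.mul_le_mul_left 2 (card_clause n (m + 1))).trans hN
  have h9 : 4 ^ a = 2 ^ a * 2 ^ a := by rw [← mul_pow]; norm_num
  have h10 : 4 ≤ 2 ^ a := by
    calc 4 = 2 ^ 2 := by norm_num
      _ ≤ 2 ^ a := Nat.pow_le_pow_right (by norm_num) ha
  nlinarith

end Pool.Agent.H596R2.D3
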