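import Mathlib

/-!
Core of the depth three lower bound: top-down limit argument (flower lemma).
-/

namespace Pool.Agent.H596R2.D3

open Finset Classical

/-- An OR of literals (and possibly the constant true) on the variables `Q`. -/
structure OrGate (Q : Type) where
  cst : Prop
  pos : Set Q
  neg : Set Q

/-- The value of an OR gate. -/
def OrGate.Holds {Q : Type} (g : OrGate Q) (w : Q → Bool) : Prop :=
  g.cst ∨ (∃ q ∈ g.pos, w q = true) ∨ (∃ q ∈ g.neg, w q = false)

section core

set_option linter.unusedSectionVars false

variable {R K : Type} [Fintype R] [Fintype K]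

/-- The background `u`: in every block exactly one of the two copies is true; the blocks in `D`
are opened (both copies true). -/
noncomputable def opn (u : R × K → Bool) (D : Finset (R × K)) (q : (R × K) × Bool) : Bool :=
  decide (q.1 ∈ D) || (q.2 == u q.1)

/-- The graph of a choice function. -/
noncomputable def graph (J : R → K) : Finset (R × K) := univ.image (fun i => (i, J i))

theorem mem_graph (J : R → K) (x : R × K) : x ∈ graph J ↔ J x.1 = x.2 := by
  unfold graph
  simp only [mem_image, mem_univ, true_and]
  constructor
  · rintro ⟨i, rfl⟩; rfl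
  · intro h; exact ⟨x.1, by rw [h]⟩

theorem card_graph (J : R → K) : (graph J).card = Fintype.card R := by
  unfold graph
  rw [card_image_of_injective, card_univ]
  intro i j h
  simpa using (Prod.ext_iff.mp h).1

/-- The flower lemma. -/
theorem flower (p : ℕ) (S : Finset (R → K)) (hS : p ^ Fintype.card R < S.card) :
    ∃ D : Finset (R × K), D.card < Fintype.card R ∧
      ∀ P : Finset (R × K), P.card ≤ p → Disjoint P D →
        ∃ J ∈ S, D ⊆ graph J ∧ Disjoint P (graph J) := by
  set a := Fintype.card R with ha
  let SD : Finset (R × K) → Finset (R → K) := fun D => S.filter (fun J => D ⊆ graph J)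
  let F : Finset (Finset (R × K)) :=
    univ.filter (fun D => D.card ≤ a ∧ p ^ (a - D.card) < (SD D).card)
  have hF : F.Nonempty := by
    refine ⟨∅, ?_⟩
    simp only [F, SD, mem_filter, mem_univ, true_and, card_empty, Nat.zero_le, Nat.sub_zero,
      empty_subset, filter_true]
    exact hS
  obtain ⟨D, hDF, hmax⟩ := exists_max_image F card hF
  have hD : D.card ≤ a ∧ p ^ (a - D.card) < (SD D).card := by
    simpa [F] using hDF
  have hlt : D.card < a := by
    rcases lt_or_eq_of_le hD.1 with h | h
    · exact h
    · exfalso
      have h2 := hD.2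
      rw [h, Nat.sub_self, pow_zero] at h2
      obtain ⟨J, hJ, J', hJ', hne⟩ := one_lt_card.mp h2
      apply hne
      simp only [SD, mem_filter] at hJ hJ'
      have e1 : D = graph J := eq_of_subset_of_card_le hJ.2 (by rw [card_graph, h])
      have e2 : D = graph J' := eq_of_subset_of_card_le hJ'.2 (by rw [card_graph, h])
      funext i
      have : (i, J i) ∈ graph J' := by rw [← e2, e1, mem_graph]
      rw [mem_graph] at this
      exact this.symm
  refine ⟨D, hlt, ?_⟩
  intro P hP hdis
  by_contra hcon
  push Not at hcon
  have hsub : SD D ⊆ P.biUnion (fun x => SD (insert x D)) := by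
    intro J hJ
    simp only [SD, mem_filter] at hJ
    have h1 := hcon J hJ.1 hJ.2
    rw [not_disjoint_iff] at h1
    obtain ⟨x, hxP, hxJ⟩ := h1
    simp only [mem_biUnion, SD, mem_filter]
    refine ⟨x, hxP, hJ.1, ?_⟩
    intro y hy
    rcases mem_insert.mp hy with rfl | hy
    · exact hxJ
    · exact hJ.2 hy
  have hle : (SD D).card ≤ p ^ (a - D.card) := by
    calc (SD D).card ≤ (P.biUnion (fun x => SD (insert x D))).card := card_le_card hsub
      _ ≤ ∑ x ∈ P, (SD (insert x D)).card := card_biUnion_le
      _ ≤ ∑ x ∈ P, p ^ (a - D.card - 1) := by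
          apply sum_le_sum
          intro x hx
          have hxD : x ∉ D := fun h => (disjoint_left.mp hdis hx h)
          have hc : (insert x D).card = D.card + 1 := card_insert_of_notMem hxD
          by_contra hlt2
          push Not at hlt2
          have : insert x D ∈ F := by
            simp only [F, mem_filter, mem_univ, true_and]
            refine ⟨by omega, ?_⟩
            rw [hc]
            have e : a - (D.card + 1) = a - D.card - 1 := by omega
            rw [e]
            exact hlt2
          have := hmax _ this
          omega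
      _ = P.card * p ^ (a - D.card - 1) := by rw [sum_const, smul_eq_mul]
      _ ≤ p * p ^ (a - D.card - 1) := Nat.mul_le_mul_right _ hP
      _ = p ^ (a - D.card) := by
          rw [← pow_succ']
          congr 1
          omega
  exact absurd hD.2 (not_lt.mpr hle)

/-- A gate is good for the background if it is always satisfied or has few positive blocks. -/
def Good (u : R × K → Bool) (p : ℕ) (G : OrGate ((R × K) × Bool)) : Prop :=
  (∃ q ∈ G.pos, q.2 = u q.1) ∨ ∃ P : Finset (R × K), P.card ≤ p ∧ ∀ q ∈ G.pos, q.1 ∈ P

/-- A CNF with good gates that implies the function accepts few choice functions. -/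
theorem cnf_bound (u : R × K → Bool) (p : ℕ) (C : Set (OrGate ((R × K) × Bool)))
    (hgood : ∀ G ∈ C, Good u p G)
    (hf : ∀ D : Finset (R × K), (∀ G ∈ C, G.Holds (opn u D)) → ∀ i : R, ∃ j : K, (i, j) ∈ D) :
    (univ.filter (fun J : R → K => ∀ G ∈ C, G.Holds (opn u (graph J)))).card
      ≤ p ^ Fintype.card R := by
  by_contra hcon
  push Not at hcon
  obtain ⟨D, hDlt, hfl⟩ := flower p _ hcon
  have hrow : ¬ ∀ i : R, ∃ j : K, (i, j) ∈ D := by
    intro h
    have : Fintype.card R ≤ D.card := by
      rw [← card_univ]
      have h2 : (univ : Finset R) ⊆ D.image Prod.fst := by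
        intro i _
        obtain ⟨j, hj⟩ := h i
        exact mem_image.mpr ⟨_, hj, rfl⟩
      exact (card_le_card h2).trans card_image_le
    omega
  apply hrow
  apply hf D
  intro G hG
  by_contra hno
  unfold OrGate.Holds at hno
  push Not at hno
  obtain ⟨hc, hpos, hneg⟩ := hno
  rcases hgood G hG with ⟨q, hq, hqu⟩ | ⟨P, hPc, hP⟩
  · apply hpos q hq
    simp [opn, hqu]
  · obtain ⟨J, hJS, hDJ, hPJ⟩ := hfl (P \ D) ((card_le_card sdiff_subset).trans hPc)
      sdiff_disjoint
    simp only [mem_filter, mem_univ, true_and] at hJS
    rcases hJS G hG with h | ⟨q, hq, hqw⟩ | ⟨q, hq, hqw⟩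
    · exact hc h
    · have h1 := hpos q hq
      have h2 : q.1 ∉ D := by
        intro h
        apply h1
        simp [opn, h]
      have h3 : ¬ (q.2 = u q.1) := by
        intro h
        apply h1
        simp [opn, h]
      have h4 : q.1 ∉ graph J := by
        apply disjoint_left.mp hPJ
        rw [mem_sdiff]
        exact ⟨hP q hq, h2⟩
      simp [opn, h4] at hqw
      exact h3 hqw
    · apply hneg q hq
      simp only [opn, Bool.or_eq_false_iff, decide_eq_false_iff_not] at hqw ⊢
      exact ⟨fun h => hqw.1 (hDJ h), hqw.2⟩

/-- Random background: all gates of a small family are good. -/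
theorem background {ι : Type} [Fintype ι] (p : ℕ) (hι : Fintype.card ι < 2 ^ (p + 1))
    (bot : ι → OrGate ((R × K) × Bool)) :
    ∃ u : R × K → Bool, ∀ i, Good u p (bot i) := by
  by_contra hcon
  push Not at hcon
  set B := Fintype.card (R × K) with hB
  -- the bad backgrounds of gate i
  let bad : ι → Finset (R × K → Bool) := fun i => univ.filter (fun u => ¬ Good u p (bot i))
  have hcov : (univ : Finset (R × K → Bool)) ⊆ univ.biUnion bad := by
    intro u _
    obtain ⟨i, hi⟩ := hcon u
    simp only [mem_biUnion, mem_univ, true_and, bad, mem_filter]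
    exact ⟨i, hi⟩
  have hbad : ∀ i, (bad i).card * 2 ^ (p + 1) ≤ 2 ^ B := by
    intro i
    let T : Finset (R × K) := univ.filter (fun x => ∃ l, (x, l) ∈ (bot i).pos)
    have hT : ∀ x ∈ T, ∃ l, (x, l) ∈ (bot i).pos := by
      intro x hx
      simpa [T] using hx
    choose! l hl using hT
    by_cases hTc : T.card ≤ p
    · have : bad i = ∅ := by
        rw [filter_eq_empty_iff]
        intro u _
        push Not
        right
        refine ⟨T, hTc, ?_⟩
        intro q hq
        simp only [T, mem_filter, mem_univ, true_and]
        exact ⟨q.2, hq⟩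
      rw [this]
      simp
    · push Not at hTc
      have hsub : bad i ⊆ Fintype.piFinset (fun x => if x ∈ T then {!(l x)} else univ) := by
        intro u hu
        simp only [bad, mem_filter, mem_univ, true_and, Good, not_or] at hu
        rw [Fintype.mem_piFinset]
        intro x
        by_cases hx : x ∈ T
        · simp only [hx, if_true, mem_singleton]
          have h1 := hu.1
          push Not at h1
          have h2 := h1 _ (hl x hx)
          simp only at h2
          cases hh : l x <;> cases hu2 : u x <;> simp_all
        · simp [hx]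
      have hcard : (Fintype.piFinset (fun x : R × K => if x ∈ T then {!(l x)} else
          (univ : Finset Bool))).card = 2 ^ (B - T.card) := by
        rw [Fintype.card_piFinset]
        have : ∀ x : R × K, (if x ∈ T then ({!(l x)} : Finset Bool) else univ).card
            = if x ∈ T then 1 else 2 := by
          intro x
          split_ifs <;> simp
        rw [prod_congr rfl (fun x _ => this x)]
        rw [prod_ite]
        simp only [prod_const_one, prod_const, one_mul]
        congr 1
        have h3 : (univ.filter (fun x => x ∉ T)).card = B - T.card := by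
          have : univ.filter (fun x => x ∉ T) = univ \ T := by
            ext x; simp
          rw [this, card_sdiff_of_subset (subset_univ T), card_univ]
        exact h3
      calc (bad i).card * 2 ^ (p + 1) ≤ 2 ^ (B - T.card) * 2 ^ (p + 1) := by
            apply Nat.mul_le_mul_right
            rw [← hcard]
            exact card_le_card hsub
        _ = 2 ^ (B - T.card + (p + 1)) := (pow_add 2 (B - T.card) (p + 1)).symm
        _ ≤ 2 ^ B := by
            apply Nat.pow_le_pow_right (by norm_num)
            have : T.card ≤ B := by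
              rw [hB, ← card_univ]; exact card_le_card (subset_univ T)
            omega
  have h1 : (2 : ℕ) ^ B ≤ ∑ i, (bad i).card := by
    have : (univ : Finset (R × K → Bool)).card = 2 ^ B := by
      rw [card_univ, Fintype.card_fun, Fintype.card_bool]
    rw [← this]
    exact (card_le_card hcov).trans card_biUnion_le
  have h2 : 2 ^ B * 2 ^ (p + 1) ≤ Fintype.card ι * 2 ^ B := by
    calc 2 ^ B * 2 ^ (p + 1) ≤ (∑ i, (bad i).card) * 2 ^ (p + 1) := Nat.mul_le_mul_right _ h1
      _ = ∑ i, (bad i).card * 2 ^ (p + 1) := by rw [sum_mul]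
      _ ≤ ∑ i : ι, 2 ^ B := sum_le_sum (fun i _ => hbad i)
      _ = Fintype.card ι * 2 ^ B := by rw [sum_const, card_univ, smul_eq_mul]
  have h3 : Fintype.card ι * 2 ^ B < 2 ^ (p + 1) * 2 ^ B :=
    Nat.mul_lt_mul_of_pos_right hι (by positivity)
  rw [mul_comm (2 ^ B)] at h2
  omega

/-- The core lower bound: a union of CNFs, all of whose gates are in a family of fewer than
`2 ^ (p + 1)` gates or touch at most one positive block, that computes
`∀ i, ∃ j, both copies of (i, j)` has at least `(|K| / p) ^ |R|` CNFs. -/
theorem core {ι T : Type} [Fintype ι] [Fintype T] (p : ℕ) (hp : 1 ≤ p)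
    (hι : Fintype.card ι < 2 ^ (p + 1))
    (bot : ι → OrGate ((R × K) × Bool)) (cnf : T → Set (OrGate ((R × K) × Bool)))
    (hcnf : ∀ t, ∀ G ∈ cnf t, (∃ i, G = bot i) ∨ G.pos.Subsingleton)
    (hf1 : ∀ w : (R × K) × Bool → Bool, ∀ t, (∀ G ∈ cnf t, G.Holds w) →
      ∀ i, ∃ j, w ((i, j), false) = true ∧ w ((i, j), true) = true)
    (hf2 : ∀ w : (R × K) × Bool → Bool,
      (∀ i, ∃ j, w ((i, j), false) = true ∧ w ((i, j), true) = true) →
      ∃ t, ∀ G ∈ cnf t, G.Holds w) :
    Fintype.card K ^ Fintype.card R ≤ Fintype.card T * p ^ Fintype.card R := by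
  obtain ⟨u, hu⟩ := background (R := R) (K := K) p hι bot
  let acc : T → Finset (R → K) :=
    fun t => univ.filter (fun J : R → K => ∀ G ∈ cnf t, G.Holds (opn u (graph J)))
  have hgood : ∀ t, ∀ G ∈ cnf t, Good u p G := by
    intro t G hG
    rcases hcnf t G hG with ⟨i, rfl⟩ | hx
    · exact hu i
    · right
      rcases G.pos.eq_empty_or_nonempty with h | ⟨q0, hq0⟩
      · exact ⟨∅, by simp, fun q hq => by rw [h] at hq; exact absurd hq (by simp)⟩
      · exact ⟨{q0.1}, by simpa using hp, fun q hq => by rw [hx hq hq0]; simp⟩
  have hacc : ∀ t, (acc t).card ≤ p ^ Fintype.card R := by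
    intro t
    apply cnf_bound u p (cnf t) (hgood t)
    intro D hD i
    obtain ⟨j, h1, h2⟩ := hf1 _ t hD i
    refine ⟨j, ?_⟩
    by_contra hj
    simp only [opn, hj, decide_false, Bool.false_or, beq_iff_eq] at h1 h2
    rw [← h1] at h2
    exact absurd h2 (by simp)
  have hcov : (univ : Finset (R → K)) ⊆ univ.biUnion acc := by
    intro J _
    obtain ⟨t, ht⟩ := hf2 (opn u (graph J)) (by
      intro i
      refine ⟨J i, ?_, ?_⟩ <;> simp [opn, mem_graph])
    simp only [mem_biUnion, mem_univ, true_and, acc, mem_filter]
    exact ⟨t, ht⟩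
  calc Fintype.card K ^ Fintype.card R = (univ : Finset (R → K)).card := by
        rw [card_univ, Fintype.card_fun]
    _ ≤ (univ.biUnion acc).card := card_le_card hcov
    _ ≤ ∑ t, (acc t).card := card_biUnion_le
    _ ≤ ∑ t : T, p ^ Fintype.card R := sum_le_sum (fun t _ => hacc t)
    _ = Fintype.card T * p ^ Fintype.card R := by rw [sum_const, card_univ, smul_eq_mul]

end core

end Pool.Agent.H596R2.D3
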