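import Mathlib

/-!
Constant depth circuits and the satisfiability problem for `k`-CNF formulas.
-/

namespace Pool.Agent.H596R2.D3

/-- A circuit of depth at most `d` on the input bits `I`.

The gates are unbounded fan-in conjunctions (`conj g = true`) and disjunctions
(`conj g = false`).  A wire into `g` is a pair `(x, s)`: it comes from the input bit or gate `x`
and is negated iff `s = false`; so negations are free.  Every gate has a level below `d` and wires
go from lower levels to higher ones: the circuit is acyclic, and at most `d` gates lie on a path. -/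
structure Circuit (I : Type) (d : ℕ) where
  G : Type
  fin : Fintype G
  conj : G → Bool
  lev : G → Fin d
  wires : G → Set ((I ⊕ G) × Bool)
  mono : ∀ g h s, (Sum.inr h, s) ∈ wires g → lev h < lev g
  out : G

/-- The number of gates. -/
def Circuit.size {I : Type} {d : ℕ} (C : Circuit I d) : ℕ := @Fintype.card C.G C.fin

/-- The value of a gate on the input `z`. -/
def Circuit.val {I : Type} {d : ℕ} (C : Circuit I d) (z : I → Bool) (g : C.G) : Prop :=
  if C.conj g = true then
    (∀ i s, (Sum.inl i, s) ∈ C.wires g → z i = s) ∧
    (∀ h s, (_hm : (Sum.inr h, s) ∈ C.wires g) → (C.val z h ↔ s = true))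
  else
    (∃ i s, (Sum.inl i, s) ∈ C.wires g ∧ z i = s) ∨
    (∃ h s, ∃ _hm : (Sum.inr h, s) ∈ C.wires g, (C.val z h ↔ s = true))
termination_by (C.lev g).val
decreasing_by
  all_goals exact C.mono _ _ _ _hm

/-- The clauses with at most `k` literals on the variables `Fin n`; the literal `(v, b)` says that
the variable `v` has the value `b`. -/
abbrev Clause (n k : ℕ) : Type := {c : Finset (Fin n × Bool) // c.card ≤ k}

/-- The CNF formula whose set of clauses has the indicator vector `z` is satisfiable. -/
def Satisfiable {n k : ℕ} (z : Clause n k → Bool) : Prop :=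
  ∃ x : Fin n → Bool, ∀ c : Clause n k, z c = true → ∃ l ∈ c.1, x l.1 = l.2

/-- The circuit decides `k`-CNF-SAT on `n` variables. -/
def Circuit.Decides {n k d : ℕ} (C : Circuit (Clause n k) d) : Prop :=
  ∀ z, C.val z C.out ↔ Satisfiable z

end Pool.Agent.H596R2.D3
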