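import Pool.Agent.H596R2.D3.Norm

/-!
Projections and embeddings into the satisfiability problem.
-/

namespace Pool.Agent.H596R2.D3

open Finset Classical

variable {I : Type}

/-- Every input bit is a constant or a possibly negated variable. -/
def IsProj {Q : Type} (X : (Q → Bool) → I → Bool) : Prop :=
  ∀ i, (∃ b, ∀ w, X w i = b) ∨ (∃ q s, ∀ w, X w i = xor (w q) s)

theorem pull {Q : Type} (X : (Q → Bool) → I → Bool) (hX : IsProj X) (c : Set (I × Bool)) :
    ∃ G : OrGate Q, (∀ w, G.Holds w ↔ cH c (X w)) ∧ (c.Subsingleton → G.pos.Subsingleton) := by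
  have hcode : ∀ i, ∃ e : Bool ⊕ (Q × Bool), ∀ w, X w i = match e with
      | Sum.inl b => b
      | Sum.inr (q, s) => xor (w q) s := by
    intro i
    rcases hX i with ⟨b, hb⟩ | ⟨q, s, h⟩
    · exact ⟨Sum.inl b, hb⟩
    · exact ⟨Sum.inr (q, s), h⟩
  choose code hc using hcode
  refine ⟨⟨∃ l ∈ c, code l.1 = Sum.inl l.2, {q | ∃ l ∈ c, ∃ s, code l.1 = Sum.inr (q, s) ∧
    xor l.2 s = true}, {q | ∃ l ∈ c, ∃ s, code l.1 = Sum.inr (q, s) ∧ xor l.2 s = false}⟩, ?_, ?_⟩
  · intro w
    unfold OrGate.Holds cH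
    constructor
    · rintro (⟨l, hl, h⟩ | ⟨q, ⟨l, hl, s, h, hs⟩, hq⟩ | ⟨q, ⟨l, hl, s, h, hs⟩, hq⟩)
      · refine ⟨l, hl, ?_⟩
        rw [hc, h]
      · refine ⟨l, hl, ?_⟩
        rw [hc, h]
        simp only [hq]
        cases h2 : l.2 <;> cases s <;> simp_all
      · refine ⟨l, hl, ?_⟩
        rw [hc, h]
        simp only [hq]
        cases h2 : l.2 <;> cases s <;> simp_all
    · rintro ⟨l, hl, h⟩
      rw [hc] at h
      rcases he : code l.1 with b | ⟨q, s⟩
      · rw [he] at h
        simp only at h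
        left
        exact ⟨l, hl, by rw [he, h]⟩
      · rw [he] at h
        simp only at h
        right
        cases hq : w q
        · right
          refine ⟨q, ⟨l, hl, s, he, ?_⟩, hq⟩
          rw [← h, hq]
          cases s <;> rfl
        · left
          refine ⟨q, ⟨l, hl, s, he, ?_⟩, hq⟩
          rw [← h, hq]
          cases s <;> rfl
  · rintro hsub q ⟨l, hl, s, h, _⟩ q' ⟨l', hl', s', h', _⟩
    have : l = l' := hsub hl hl'
    rw [this, h'] at h
    simp only [Sum.inr.injEq, Prod.mk.injEq] at h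
    exact h.1.symm

/-- The lower bound for projections. -/
theorem lower {R K : Type} [Fintype R] [Fintype K] [Fintype I] (C : Circuit I 3)
    (X : ((R × K) × Bool → Bool) → I → Bool) (hX : IsProj X) (p : ℕ) (hp : 1 ≤ p)
    (hs : C.size < 2 ^ (p + 1))
    (hf : ∀ w, C.Ov C.out (X w) ↔ ∀ i, ∃ j, w ((i, j), false) = true ∧ w ((i, j), true) = true) :
    Fintype.card K ^ Fintype.card R ≤
      (2 * Fintype.card I + 2 * C.size) * p ^ Fintype.card R := by
  let _ := C.fin
  obtain ⟨P, hP1, hP2⟩ := C.normal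
  choose S hS1 hS2 using hP1
  choose G hG1 hG2 using pull X hX
  have hT : Fintype.card ((I × Bool) ⊕ (C.G × Bool)) = 2 * Fintype.card I + 2 * C.size := by
    rw [Fintype.card_sum, Fintype.card_prod, Fintype.card_prod, Fintype.card_bool]
    unfold Circuit.size
    ring
  rw [← hT]
  have hval : ∀ w t, (∀ g ∈ G '' (S t), g.Holds w) ↔ P t (X w) := by
    intro w t
    rw [hS2 t]
    constructor
    · intro h c hc
      exact (hG1 c w).mp (h _ ⟨c, hc, rfl⟩)
    · rintro h g ⟨c, hc, rfl⟩
      exact (hG1 c w).mpr (h c hc)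
  apply core (ι := C.G) p hp hs (fun g => G (C.cl g)) (fun t => G '' (S t))
  · rintro t g ⟨c, hc, rfl⟩
    rcases hS1 t c hc with ⟨h, rfl⟩ | h
    · exact Or.inl ⟨h, rfl⟩
    · exact Or.inr (hG2 c h)
  · intro w t h
    exact (hf w).mp ((hP2 _).mpr ⟨t, (hval w t).mp h⟩)
  · intro w h
    obtain ⟨t, ht⟩ := (hP2 _).mp ((hf w).mpr h)
    exact ⟨t, (hval w t).mpr ht⟩

/-- General embedding of a parametrised family of CNF formulas on the variables `V` into the
formulas with at most `k` literals per clause on `Fin n`. -/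
theorem embed {n k : ℕ} {V Q : Type} (f : V → Fin n) (hf : Function.Injective f)
    (fx : Set (Finset (V × Bool))) (cl : Q → Finset (V × Bool)) (hfx : ∀ c ∈ fx, c.card ≤ k)
    (hcl : ∀ q, (cl q).card ≤ k) (hinj : Function.Injective cl) (σ : Bool) :
    ∃ X : (Q → Bool) → Clause n k → Bool, IsProj X ∧ ∀ w, Satisfiable (X w) ↔
      ∃ x : V → Bool, (∀ c ∈ fx, ∃ l ∈ c, x l.1 = l.2) ∧
        ∀ q, xor (w q) σ = true → ∃ l ∈ cl q, x l.1 = l.2 := by
  let m : V × Bool → Fin n × Bool := fun l => (f l.1, l.2)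
  have hm : Function.Injective m := by
    rintro ⟨a, b⟩ ⟨a', b'⟩ h
    simp only [m, Prod.mk.injEq] at h
    rw [hf h.1, h.2]
  have hmi : Function.Injective (fun c : Finset (V × Bool) => c.image m) :=
    Finset.image_injective hm
  refine ⟨fun w C => decide ((∃ c ∈ fx, C.1 = c.image m) ∨
    ∃ q, xor (w q) σ = true ∧ C.1 = (cl q).image m), ?_, ?_⟩
  · intro C
    by_cases h1 : ∃ c ∈ fx, C.1 = c.image m
    · left
      exact ⟨true, fun w => by simp [h1]⟩
    · by_cases h2 : ∃ q, C.1 = (cl q).image m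
      · right
        obtain ⟨q, hq⟩ := h2
        refine ⟨q, σ, fun w => ?_⟩
        have : ((∃ c ∈ fx, C.1 = c.image m) ∨
            ∃ q, xor (w q) σ = true ∧ C.1 = (cl q).image m) ↔ xor (w q) σ = true := by
          constructor
          · rintro (h | ⟨q', h, hq'⟩)
            · exact absurd h h1
            · have : q' = q := hinj (hmi (hq'.symm.trans hq))
              rw [← this]
              exact h
          · intro h
            exact Or.inr ⟨q, h, hq⟩
        simp only [this]
        cases (xor (w q) σ) <;> simp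
      · left
        refine ⟨false, fun w => ?_⟩
        rw [decide_eq_false_iff_not]
        rintro (h | ⟨q, _, hq⟩)
        · exact h1 h
        · exact h2 ⟨q, hq⟩
  · intro w
    constructor
    · rintro ⟨y, hy⟩
      refine ⟨fun v => y (f v), ?_, ?_⟩
      · intro c hc
        have hcard : (c.image m).card ≤ k := card_image_le.trans (hfx c hc)
        obtain ⟨l, hl, hyl⟩ := hy ⟨c.image m, hcard⟩ (by
          simp only [decide_eq_true_eq]
          exact Or.inl ⟨c, hc, rfl⟩)
        obtain ⟨l', hl', rfl⟩ := mem_image.mp hl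
        exact ⟨l', hl', hyl⟩
      · intro q hq
        have hcard : ((cl q).image m).card ≤ k := card_image_le.trans (hcl q)
        obtain ⟨l, hl, hyl⟩ := hy ⟨(cl q).image m, hcard⟩ (by
          simp only [decide_eq_true_eq]
          exact Or.inr ⟨q, hq, rfl⟩)
        obtain ⟨l', hl', rfl⟩ := mem_image.mp hl
        exact ⟨l', hl', hyl⟩
    · rintro ⟨x, hx1, hx2⟩
      refine ⟨Function.extend f x (fun _ => false), ?_⟩
      intro C hC
      simp only [decide_eq_true_eq] at hC
      rcases hC with ⟨c, hc, hCc⟩ | ⟨q, hq, hCq⟩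
      · obtain ⟨l, hl, hxl⟩ := hx1 c hc
        refine ⟨m l, ?_, ?_⟩
        · rw [hCc]; exact mem_image_of_mem _ hl
        · simp only [m]
          rw [hf.extend_apply]
          exact hxl
      · obtain ⟨l, hl, hxl⟩ := hx2 q hq
        refine ⟨m l, ?_, ?_⟩
        · rw [hCq]; exact mem_image_of_mem _ hl
        · simp only [m]
          rw [hf.extend_apply]
          exact hxl

/-- The chain gadget. -/
theorem chain {r : ℕ} (x : Fin r → Bool) (c : Fin (r + 1) → Bool) (h0 : c 0 = true)
    (h : ∀ d : Fin r, c d.castSucc = false ∨ x d = true ∨ c d.succ = true)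
    (hr : c (Fin.last r) = false) : ∃ d, x d = true := by
  by_contra hcon
  push Not at hcon
  have hall : ∀ d : Fin (r + 1), c d = true := by
    intro d
    induction d using Fin.induction with
    | zero => exact h0
    | succ d ih =>
      rcases h d with h1 | h1 | h1
      · rw [ih] at h1; exact absurd h1 (by simp)
      · exact absurd h1 (hcon d)
      · exact h1
  rw [hall] at hr
  exact absurd hr (by simp)

end Pool.Agent.H596R2.D3
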