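import Pool.Agent.H596R2.D3.Bounds

/-!
Final form of the bounds.
-/

namespace Pool.Agent.H596R2.D3

open Finset Classical

theorem ev (c K : ℕ) : ∃ n0 : ℕ, ∀ n ≥ n0, c * (n + 1) ^ K ≤ 2 ^ n := by
  have h := isLittleO_pow_const_const_pow_of_one_lt (R := ℝ) K (r := 2) (by norm_num)
  have h2 := h.def (c := 1 / (2 * ((c : ℝ) + 1))) (by positivity)
  obtain ⟨n0, hn0⟩ := Filter.eventually_atTop.mp h2
  refine ⟨n0, fun n hn => ?_⟩
  have h3 := hn0 (n + 1) (by omega)
  simp only [norm_pow, Real.norm_natCast, Real.norm_ofNat] at h3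
  have h4 : (c : ℝ) * ((n : ℝ) + 1) ^ K ≤ 2 ^ n := by
    have h5 : ((n + 1 : ℕ) : ℝ) = (n : ℝ) + 1 := by push_cast; ring
    rw [h5] at h3
    have h6 : (c : ℝ) * (1 / (2 * ((c : ℝ) + 1)) * 2 ^ (n + 1)) ≤ 2 ^ n := by
      rw [pow_succ]
      have : (c : ℝ) * (1 / (2 * ((c : ℝ) + 1)) * (2 ^ n * 2)) = (c / ((c : ℝ) + 1)) * 2 ^ n := by
        field_simp
      rw [this]
      have h7 : (c : ℝ) / ((c : ℝ) + 1) ≤ 1 := by
        rw [div_le_one (by positivity)]
        linarith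
      calc (c : ℝ) / ((c : ℝ) + 1) * 2 ^ n ≤ 1 * 2 ^ n :=
            mul_le_mul_of_nonneg_right h7 (by positivity)
        _ = 2 ^ n := one_mul _
    exact (mul_le_mul_of_nonneg_left h3 (by positivity)).trans h6
  exact_mod_cast h4

/-- AND output: `2 ^ (n - 6 n^(2/3))` gates. -/
theorem main_and {k : ℕ} (hk : 3 ≤ k) : ∃ n0 : ℕ, ∀ n ≥ n0, ∀ C : Circuit (Clause n k) 3,
    C.Decides → C.conj C.out = true →
      (2 : ℝ) ^ ((n : ℝ) - 6 * (n : ℝ) ^ ((2 : ℝ) / 3)) ≤ C.size := by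
  obtain ⟨n1, hn1⟩ := ev (2 ^ k) k
  refine ⟨max n1 1331, fun n hn C hC hout => ?_⟩
  have hn1' : n1 ≤ n := (le_max_left _ _).trans hn
  have hn2' : 1331 ≤ n := (le_max_right _ _).trans hn
  have hN : (2 * n + 1) ^ k ≤ 2 ^ n := by
    refine le_trans ?_ (hn1 n hn1')
    rw [← mul_pow]
    exact Nat.pow_le_pow_left (by omega) _
  set t : ℝ := (n : ℝ) ^ ((1 : ℝ) / 3) with ht
  have hn0 : (0 : ℝ) ≤ n := Nat.cast_nonneg n
  have ht3 : t ^ 3 = n := by
    rw [ht, ← Real.rpow_natCast, ← Real.rpow_mul hn0]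
    norm_num
  have ht2 : t ^ 2 = (n : ℝ) ^ ((2 : ℝ) / 3) := by
    rw [ht, ← Real.rpow_natCast, ← Real.rpow_mul hn0]
    norm_num
  have ht0 : 0 ≤ t := Real.rpow_nonneg hn0 _
  have ht11 : 11 ≤ t := by
    by_contra hlt
    push Not at hlt
    have : t ^ 3 < 11 ^ 3 := pow_lt_pow_left₀ hlt ht0 (by norm_num)
    rw [ht3] at this
    have h2 : (1331 : ℝ) ≤ n := by exact_mod_cast hn2'
    norm_num at this
    linarith
  set m := ⌈t⌉₊ with hm
  have hm1 : t ≤ m := Nat.le_ceil t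
  have hm2 : (m : ℝ) < t + 1 := Nat.ceil_lt_add_one ht0
  have hmpos : 1 ≤ m := by
    have : (0 : ℝ) < m := by linarith
    exact_mod_cast this
  have hmn : n ≤ m ^ 3 := by
    have : (n : ℝ) ≤ (m : ℝ) ^ 3 := by
      rw [← ht3]
      exact pow_le_pow_left₀ ht0 hm1 3
    exact_mod_cast this
  have hmm : (m : ℝ) ^ 2 ≤ (t + 1) ^ 2 := pow_le_pow_left₀ (by positivity) hm2.le 2
  have hloss : 5 * (m : ℝ) ^ 2 + 5 ≤ 6 * t ^ 2 := by nlinarith
  have hn5 : 5 * m ^ 2 + 7 ≤ n := by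
    have : 5 * (m : ℝ) ^ 2 + 7 ≤ (n : ℝ) := by
      rw [← ht3]
      nlinarith
    exact_mod_cast this
  have h1 := and_bound hk hN hmpos hmn hn5 C hC hout
  have h2 : (2 : ℝ) ^ (n - (5 * m ^ 2 + 5)) ≤ C.size := by exact_mod_cast h1
  refine le_trans ?_ h2
  rw [← Real.rpow_natCast]
  apply Real.rpow_le_rpow_of_exponent_le (by norm_num)
  rw [Nat.cast_sub (by omega)]
  push_cast
  rw [← ht2]
  linarith

/-- OR output: `2 ^ (c n^(k/(k+1)))` gates. -/
theorem main_or {k : ℕ} (hk : 3 ≤ k) : ∃ n0 : ℕ, ∀ n ≥ n0, ∀ C : Circuit (Clause n k) 3,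
    C.Decides → C.conj C.out = false →
      (2 : ℝ) ^ (1 / (8 * 2 ^ k * (k : ℝ)) * (n : ℝ) ^ ((k : ℝ) / (k + 1))) ≤ C.size := by
  obtain ⟨m, rfl⟩ : ∃ m, k = m + 1 := ⟨k - 1, by omega⟩
  obtain ⟨r1, hr1⟩ := ev (2 * (2 * (m + 1) + 1) ^ (m + 1)) ((m + 2) * (m + 1))
  set r0 := max r1 2 with hr0
  refine ⟨(m + 1) * r0 ^ (m + 2), fun n hn C hC hout => ?_⟩
  -- the largest `r` with `(m + 1) * r ^ (m + 2) ≤ n`
  obtain ⟨r, hr, hrmax⟩ : ∃ r, (m + 1) * r ^ (m + 2) ≤ n ∧ n < (m + 1) * (r + 1) ^ (m + 2) := by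
    have hex : ∃ r, n < (m + 1) * (r + 1) ^ (m + 2) := by
      refine ⟨n, ?_⟩
      calc n < n + 1 := Nat.lt_succ_self n
        _ ≤ (n + 1) ^ (m + 2) := Nat.le_self_pow (by omega) _
        _ ≤ (m + 1) * (n + 1) ^ (m + 2) := Nat.le_mul_of_pos_left _ (by omega)
    refine ⟨Nat.find hex, ?_, Nat.find_spec hex⟩
    rcases Nat.eq_zero_or_pos (Nat.find hex) with h | h
    · rw [h]; simp
    · have := Nat.find_min hex (m := Nat.find hex - 1) (by omega)
      push Not at this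
      rwa [Nat.sub_add_cancel h] at this
  have hrr : r0 ≤ r := by
    by_contra hlt
    push Not at hlt
    have : (m + 1) * (r + 1) ^ (m + 2) ≤ (m + 1) * r0 ^ (m + 2) :=
      Nat.mul_le_mul_left _ (Nat.pow_le_pow_left hlt _)
    omega
  have hr2 : 2 ≤ r := (le_max_right _ _).trans hrr
  have hrr1 : r1 ≤ r := (le_max_left _ _).trans hrr
  have hm2 : 2 ≤ m := by omega
  set a := r ^ (m + 1) / 4 with ha
  have har : 4 * a ≤ r ^ (m + 1) := by rw [ha]; omega
  have h4r : 4 * r ≤ r ^ (m + 1) := by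
    calc 4 * r ≤ r ^ 2 * r := Nat.mul_le_mul_right _ (by nlinarith)
      _ ≤ r ^ m * r := Nat.mul_le_mul_right _ (Nat.pow_le_pow_right (by omega) hm2)
      _ = r ^ (m + 1) := (pow_succ r m).symm
  have hra : r ≤ a := by rw [ha]; omega
  have h8 : r ^ (m + 1) ≤ 8 * a := by omega
  have hsum : a * ((m + 1) * r) + (a * ((m + 1) * (r + 1)) + a * r) ≤ n := by
    have h1 : (m + 1) * r + ((m + 1) * (r + 1) + r) ≤ 4 * (m + 1) * r := by nlinarith
    have h2 : 4 * (a * ((m + 1) * r + ((m + 1) * (r + 1) + r))) ≤ 4 * ((m + 1) * r ^ (m + 2)) := by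
      calc 4 * (a * ((m + 1) * r + ((m + 1) * (r + 1) + r)))
          = (4 * a) * ((m + 1) * r + ((m + 1) * (r + 1) + r)) := by ring
        _ ≤ r ^ (m + 1) * (4 * (m + 1) * r) := Nat.mul_le_mul har h1
        _ = 4 * ((m + 1) * r ^ (m + 2)) := by ring
    have h3 : a * ((m + 1) * r) + (a * ((m + 1) * (r + 1)) + a * r)
        = a * ((m + 1) * r + ((m + 1) * (r + 1) + r)) := by ring
    omega
  have hN : 2 * (2 * n + 1) ^ (m + 1) ≤ 2 ^ a := by
    have h1 : 2 * n + 1 ≤ (2 * (m + 1) + 1) * (r + 1) ^ (m + 2) := by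
      have h2 : 1 ≤ (r + 1) ^ (m + 2) := Nat.one_le_pow _ _ (by omega)
      nlinarith
    calc 2 * (2 * n + 1) ^ (m + 1)
        ≤ 2 * ((2 * (m + 1) + 1) * (r + 1) ^ (m + 2)) ^ (m + 1) :=
          Nat.mul_le_mul_left _ (Nat.pow_le_pow_left h1 _)
      _ = 2 * (2 * (m + 1) + 1) ^ (m + 1) * (r + 1) ^ ((m + 2) * (m + 1)) := by
          rw [mul_pow, ← pow_mul]; ring
      _ ≤ 2 ^ r := hr1 r hrr1
      _ ≤ 2 ^ a := Nat.pow_le_pow_right (by norm_num) hra
  have hfin := or_bound (n := n) (m := m) (a := a) (r := r) hm2 (by omega) hN har hsum C hC hout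
  have h2 : (2 : ℝ) ^ ((a : ℕ) : ℝ) ≤ C.size := by
    rw [Real.rpow_natCast]
    exact_mod_cast hfin
  refine le_trans ?_ h2
  apply Real.rpow_le_rpow_of_exponent_le (by norm_num)
  -- exponent
  set k : ℝ := ((m + 1 : ℕ) : ℝ) with hk'
  have hkpos : (1 : ℝ) ≤ k := by rw [hk']; push_cast; linarith [Nat.cast_nonneg (α := ℝ) m]
  have hn3 : (n : ℝ) ≤ k * (2 * (r : ℝ)) ^ (m + 2) := by
    have h3 : n ≤ (m + 1) * (2 * r) ^ (m + 2) :=
      hrmax.le.trans (Nat.mul_le_mul_left _ (Nat.pow_le_pow_left (by omega) _))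
    have : (n : ℝ) ≤ (((m + 1) * (2 * r) ^ (m + 2) : ℕ) : ℝ) := by exact_mod_cast h3
    rw [hk']
    push_cast at this ⊢
    linarith
  have hexp0 : 0 ≤ k / (k + 1) := by positivity
  have hn4 : (n : ℝ) ^ (k / (k + 1)) ≤ k * (2 * (r : ℝ)) ^ (m + 1) := by
    calc (n : ℝ) ^ (k / (k + 1)) ≤ (k * (2 * (r : ℝ)) ^ (m + 2)) ^ (k / (k + 1)) :=
          Real.rpow_le_rpow (Nat.cast_nonneg n) hn3 hexp0
      _ = k ^ (k / (k + 1)) * ((2 * (r : ℝ)) ^ (m + 2)) ^ (k / (k + 1)) :=
          Real.mul_rpow (by positivity) (by positivity)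
      _ = k ^ (k / (k + 1)) * (2 * (r : ℝ)) ^ (m + 1) := by
          congr 1
          rw [← Real.rpow_natCast, ← Real.rpow_mul (by positivity), ← Real.rpow_natCast]
          congr 1
          have : ((m + 2 : ℕ) : ℝ) = k + 1 := by rw [hk']; push_cast; ring
          rw [this]
          field_simp
          rw [hk']
      _ ≤ k * (2 * (r : ℝ)) ^ (m + 1) := by
          apply mul_le_mul_of_nonneg_right _ (by positivity)
          calc k ^ (k / (k + 1)) ≤ k ^ (1 : ℝ) :=
                Real.rpow_le_rpow_of_exponent_le hkpos (by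
                  rw [div_le_one (by positivity)]; linarith)
            _ = k := Real.rpow_one k
  have ha8 : (r : ℝ) ^ (m + 1) ≤ 8 * (a : ℝ) := by exact_mod_cast h8
  calc 1 / (8 * 2 ^ (m + 1) * k) * (n : ℝ) ^ (k / (k + 1))
      ≤ 1 / (8 * 2 ^ (m + 1) * k) * (k * (2 * (r : ℝ)) ^ (m + 1)) :=
        mul_le_mul_of_nonneg_left hn4 (by positivity)
    _ = (r : ℝ) ^ (m + 1) / 8 := by
        rw [mul_pow]
        field_simp
    _ ≤ a := by linarith

/-- All circuits of depth three. -/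
theorem main_all {k : ℕ} (hk : 3 ≤ k) : ∃ c : ℝ, 0 < c ∧ ∃ n0 : ℕ, ∀ n ≥ n0,
    ∀ C : Circuit (Clause n k) 3, C.Decides →
      (2 : ℝ) ^ (c * (n : ℝ) ^ ((k : ℝ) / (k + 1))) ≤ C.size := by
  obtain ⟨n1, h1⟩ := main_and hk
  obtain ⟨n2, h2⟩ := main_or hk
  have hk0 : (0 : ℝ) < k := by exact_mod_cast (by omega : 0 < k)
  have hk1 : (1 : ℝ) ≤ k := by exact_mod_cast (by omega : 1 ≤ k)
  refine ⟨1 / (8 * 2 ^ k * (k : ℝ)), by positivity, max (max n1 n2) 1728, ?_⟩
  intro n hn C hC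
  have hn1 : n1 ≤ n := (le_max_left _ _).trans ((le_max_left _ _).trans hn)
  have hn2 : n2 ≤ n := (le_max_right _ _).trans ((le_max_left _ _).trans hn)
  have hn3 : 1728 ≤ n := (le_max_right _ _).trans hn
  cases hout : C.conj C.out
  · exact h2 n hn2 C hC hout
  · refine le_trans ?_ (h1 n hn1 C hC hout)
    apply Real.rpow_le_rpow_of_exponent_le (by norm_num)
    have hn0 : (0 : ℝ) ≤ n := Nat.cast_nonneg n
    have hn0' : (1 : ℝ) ≤ n := by exact_mod_cast (by omega : 1 ≤ n)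
    have e1 : (n : ℝ) ^ ((k : ℝ) / (k + 1)) ≤ n := by
      calc (n : ℝ) ^ ((k : ℝ) / (k + 1)) ≤ (n : ℝ) ^ (1 : ℝ) :=
            Real.rpow_le_rpow_of_exponent_le hn0' (by
              rw [div_le_one (by positivity)]; linarith)
        _ = n := Real.rpow_one _
    have e2 : 1 / (8 * 2 ^ k * (k : ℝ)) ≤ 1 / 2 := by
      apply one_div_le_one_div_of_le (by norm_num)
      have : (1 : ℝ) ≤ 2 ^ k := one_le_pow₀ (by norm_num)
      nlinarith
    set t : ℝ := (n : ℝ) ^ ((1 : ℝ) / 3) with ht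
    have ht3 : t ^ 3 = n := by
      rw [ht, ← Real.rpow_natCast, ← Real.rpow_mul hn0]
      norm_num
    have ht2 : t ^ 2 = (n : ℝ) ^ ((2 : ℝ) / 3) := by
      rw [ht, ← Real.rpow_natCast, ← Real.rpow_mul hn0]
      norm_num
    have ht0 : 0 ≤ t := Real.rpow_nonneg hn0 _
    have ht12 : 12 ≤ t := by
      by_contra hlt
      push Not at hlt
      have : t ^ 3 < 12 ^ 3 := pow_lt_pow_left₀ hlt ht0 (by norm_num)
      rw [ht3] at this
      have h2 : (1728 : ℝ) ≤ n := by exact_mod_cast hn3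
      norm_num at this
      linarith
    rw [← ht2]
    have e3 : 1 / (8 * 2 ^ k * (k : ℝ)) * (n : ℝ) ^ ((k : ℝ) / (k + 1)) ≤ 1 / 2 * n :=
      mul_le_mul e2 e1 (Real.rpow_nonneg hn0 _) (by norm_num)
    refine e3.trans ?_
    rw [← ht3]
    nlinarith [mul_nonneg ht0 ht0]

/-- Exhaustive search as a circuit of depth three. -/
theorem upper (n k : ℕ) : ∃ C : Circuit (Clause n k) 3,
    C.Decides ∧ C.conj C.out = true ∧ C.size = 2 ^ n + 2 := by
  let C : Circuit (Clause n k) 3 :=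
    { G := Option (Option (Fin n → Bool))
      fin := inferInstance
      conj := fun g => match g with
        | none => true
        | some none => false
        | some (some _) => true
      lev := fun g => match g with
        | none => 2
        | some none => 1
        | some (some _) => 0
      wires := fun g => match g with
        | none => {(Sum.inr (some none), true)}
        | some none => {w | ∃ x, w = (Sum.inr (some (some x)), true)}
        | some (some x) => {w | ∃ c : Clause n k, (¬ ∃ l ∈ c.1, x l.1 = l.2) ∧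
            w = (Sum.inl c, false)}
      mono := by
        rintro (_ | _ | x) h s hw
        · simp only [Set.mem_singleton_iff, Prod.mk.injEq, Sum.inr.injEq] at hw
          rw [hw.1]
          show (1 : Fin 3) < 2
          decide
        · obtain ⟨x, hx⟩ := hw
          simp only [Prod.mk.injEq, Sum.inr.injEq] at hx
          rw [hx.1]
          show (0 : Fin 3) < 1
          decide
        · obtain ⟨c, _, hc⟩ := hw
          simp at hc
      out := none }
  refine ⟨C, ?_, rfl, ?_⟩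
  · intro z
    have h0 : ∀ x : Fin n → Bool, C.val z (some (some x)) ↔
        ∀ c : Clause n k, z c = true → ∃ l ∈ c.1, x l.1 = l.2 := by
      intro x
      rw [Circuit.val]
      rw [if_pos rfl]
      constructor
      · rintro ⟨h1, _⟩ c hz
        by_contra hno
        have := h1 c false ⟨c, hno, rfl⟩
        rw [hz] at this
        exact absurd this (by simp)
      · intro h
        refine ⟨?_, ?_⟩
        · rintro c s ⟨c', hc', he⟩
          simp only [Prod.mk.injEq, Sum.inl.injEq] at he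
          rw [he.1, he.2]
          by_contra hz
          exact hc' (h c' (by simpa using hz))
        · rintro g s ⟨c', _, he⟩
          simp at he
    have h1 : C.val z (some none) ↔ Satisfiable z := by
      rw [Circuit.val]
      rw [if_neg (by simp [C])]
      constructor
      · rintro (⟨c, s, ⟨x, hx⟩, _⟩ | ⟨g, s, ⟨x, hx⟩, hv⟩)
        · simp at hx
        · simp only [Prod.mk.injEq, Sum.inr.injEq] at hx
          rw [hx.1, hx.2] at hv
          exact ⟨x, (h0 x).mp (hv.mpr rfl)⟩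
      · rintro ⟨x, hx⟩
        right
        exact ⟨some (some x), true, ⟨x, rfl⟩, by simpa using (h0 x).mpr hx⟩
    show C.val z none ↔ Satisfiable z
    rw [Circuit.val]
    rw [if_pos rfl]
    constructor
    · rintro ⟨_, h⟩
      exact h1.mp ((h (some none) true rfl).mpr rfl)
    · intro h
      refine ⟨?_, ?_⟩
      · intro c s he
        simp [C] at he
      · intro g s he
        have he' := Prod.mk.inj (Set.mem_singleton_iff.mp he)
        rw [Sum.inr.inj he'.1, he'.2]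
        simpa using h1.mpr h
  · show Fintype.card (Option (Option (Fin n → Bool))) = 2 ^ n + 2
    rw [Fintype.card_option, Fintype.card_option, Fintype.card_fun, Fintype.card_bool,
      Fintype.card_fin]

end Pool.Agent.H596R2.D3
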