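import Pool.Agent.H596R2.D3.Core
import Pool.Agent.H596R2.D3.Defs

/-!
Depth three circuits are ORs of CNFs (up to negation).
-/

namespace Pool.Agent.H596R2.D3

open Finset Classical

variable {I : Type}

/-- A clause (a set of literals) holds at `z`. -/
def cH (c : Set (I × Bool)) (z : I → Bool) : Prop := ∃ l ∈ c, z l.1 = l.2

/-- `P` is a conjunction of clauses which are in `B` or have at most one literal. -/
def IsCnf (B : Set (Set (I × Bool))) (P : (I → Bool) → Prop) : Prop :=
  ∃ S : Set (Set (I × Bool)), (∀ c ∈ S, c ∈ B ∨ c.Subsingleton) ∧ ∀ z, P z ↔ ∀ c ∈ S, cH c z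

theorem IsCnf.all {B : Set (Set (I × Bool))} {J : Type} {P : J → (I → Bool) → Prop}
    (h : ∀ j, IsCnf B (P j)) : IsCnf B (fun z => ∀ j, P j z) := by
  choose S hS1 hS2 using h
  refine ⟨⋃ j, S j, ?_, ?_⟩
  · intro c hc
    obtain ⟨j, hj⟩ := Set.mem_iUnion.mp hc
    exact hS1 j c hj
  · intro z
    constructor
    · intro h c hc
      obtain ⟨j, hj⟩ := Set.mem_iUnion.mp hc
      exact (hS2 j z).mp (h j) c hj
    · intro h j
      exact (hS2 j z).mpr (fun c hc => h c (Set.mem_iUnion.mpr ⟨j, hc⟩))

theorem IsCnf.and {B : Set (Set (I × Bool))} {P Q : (I → Bool) → Prop}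
    (h : IsCnf B P) (h' : IsCnf B Q) : IsCnf B (fun z => P z ∧ Q z) := by
  have := IsCnf.all (B := B) (J := Bool) (P := fun b z => if b = true then P z else Q z)
    (by rintro (_ | _) <;> simpa)
  obtain ⟨S, hS1, hS2⟩ := this
  refine ⟨S, hS1, ?_⟩
  intro z
  rw [← hS2 z]
  constructor
  · rintro ⟨h1, h2⟩ (_ | _) <;> simpa
  · intro h
    exact ⟨by simpa using h true, by simpa using h false⟩

theorem IsCnf.congr {B : Set (Set (I × Bool))} {P Q : (I → Bool) → Prop}
    (h : IsCnf B P) (e : ∀ z, Q z ↔ P z) : IsCnf B Q := by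
  obtain ⟨S, h1, h2⟩ := h
  exact ⟨S, h1, fun z => (e z).trans (h2 z)⟩

theorem IsCnf.lit {B : Set (Set (I × Bool))} (i : I) (b : Bool) : IsCnf B (fun z => z i = b) :=
  ⟨{{(i, b)}}, by
    intro c hc
    right
    rw [Set.mem_singleton_iff.mp hc]
    exact Set.subsingleton_singleton, by
    intro z
    simp [cH]⟩

theorem IsCnf.no {B : Set (Set (I × Bool))} : IsCnf B (fun _ : I → Bool => False) :=
  ⟨{∅}, by
    intro c hc
    right
    rw [Set.mem_singleton_iff.mp hc]
    exact Set.subsingleton_empty, by
    intro z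
    simp [cH]⟩

theorem IsCnf.clause {B : Set (Set (I × Bool))} {c : Set (I × Bool)} (hc : c ∈ B) :
    IsCnf B (cH c) :=
  ⟨{c}, by
    intro c' hc'
    left
    rw [Set.mem_singleton_iff.mp hc']
    exact hc, by
    intro z
    simp⟩

/-- The disjunctive side of a gate. -/
def Circuit.Ov {d : ℕ} (C : Circuit I d) (g : C.G) (z : I → Bool) : Prop :=
  C.val z g ↔ C.conj g = false

theorem Circuit.Ov_iff {d : ℕ} (C : Circuit I d) (g : C.G) (z : I → Bool) :
    C.Ov g z ↔ (∃ i s, (Sum.inl i, s) ∈ C.wires g ∧ z i = xor s (C.conj g)) ∨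
      (∃ h s, (Sum.inr h, s) ∈ C.wires g ∧ (C.val z h ↔ xor s (C.conj g) = true)) := by
  unfold Circuit.Ov
  rw [Circuit.val]
  cases hc : C.conj g
  · simp only [Bool.false_eq_true, if_false, Bool.xor_false, exists_prop, iff_true]
  · simp only [if_true, Bool.xor_true, Bool.true_eq_false, iff_false, not_and_or, not_forall]
    apply or_congr
    · constructor
      · rintro ⟨i, s, hm, hz⟩
        refine ⟨i, s, hm, ?_⟩
        cases s <;> cases hzi : z i <;> simp_all
      · rintro ⟨i, s, hm, hz⟩
        refine ⟨i, s, hm, ?_⟩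
        rw [hz]
        cases s <;> simp
    · constructor
      · rintro ⟨h, s, hm, hz⟩
        refine ⟨h, s, hm, ?_⟩
        cases s <;> simp_all
      · rintro ⟨h, s, hm, hz⟩
        refine ⟨h, s, hm, ?_⟩
        cases s <;> simp_all

/-- The clause of a gate all of whose wires come from inputs. -/
def Circuit.cl {d : ℕ} (C : Circuit I d) (g : C.G) : Set (I × Bool) :=
  {l | ∃ i s, (Sum.inl i, s) ∈ C.wires g ∧ l = (i, xor s (C.conj g))}

/-- The clauses of the gates. -/
def Circuit.B {d : ℕ} (C : Circuit I d) : Set (Set (I × Bool)) := Set.range C.cl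

theorem Circuit.Ov_zero (C : Circuit I 3) (g : C.G) (h0 : C.lev g = 0) (z : I → Bool) :
    C.Ov g z ↔ cH (C.cl g) z := by
  rw [Circuit.Ov_iff]
  constructor
  · rintro (⟨i, s, hm, hz⟩ | ⟨h, s, hm, _⟩)
    · exact ⟨_, ⟨i, s, hm, rfl⟩, hz⟩
    · have := C.mono _ _ _ hm
      rw [h0] at this
      exact absurd this (by simp)
  · rintro ⟨l, ⟨i, s, hm, rfl⟩, hz⟩
    exact Or.inl ⟨i, s, hm, hz⟩

theorem Circuit.notOv_zero (C : Circuit I 3) (g : C.G) (h0 : C.lev g = 0) :
    IsCnf C.B (fun z => ¬ C.Ov g z) := by
  have h1 := IsCnf.all (B := C.B) (J := C.cl g) (P := fun l z => z l.1.1 = !l.1.2)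
    (fun l => IsCnf.lit _ _)
  refine h1.congr ?_
  intro z
  rw [C.Ov_zero g h0]
  unfold cH
  push Not
  constructor
  · intro h l
    have := h l.1 l.2
    cases hz : z l.1.1 <;> cases hl : l.1.2 <;> simp_all
  · intro h l hl
    have := h ⟨l, hl⟩
    simp only at this
    rw [this]
    simp

theorem Circuit.sign_zero (C : Circuit I 3) (g : C.G) (h0 : C.lev g = 0) (b : Bool) :
    IsCnf C.B (fun z => C.val z g ↔ b = true) := by
  by_cases hb : b = C.conj g
  · refine (C.notOv_zero g h0).congr ?_
    intro z
    unfold Circuit.Ov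
    rw [hb]
    cases C.conj g <;> by_cases hv : C.val z g <;> simp [hv]
  · refine (IsCnf.clause (B := C.B) (c := C.cl g) ⟨g, rfl⟩).congr ?_
    intro z
    rw [← C.Ov_zero g h0]
    unfold Circuit.Ov
    cases b <;> cases hc : C.conj g <;> simp_all

theorem Circuit.notOv_one (C : Circuit I 3) (g : C.G) (h1 : C.lev g ≤ 1) :
    IsCnf C.B (fun z => ¬ C.Ov g z) := by
  have hi := IsCnf.all (B := C.B) (J := C.cl g) (P := fun l z => z l.1.1 = !l.1.2)
    (fun l => IsCnf.lit _ _)
  have hg := IsCnf.all (B := C.B) (J := {x : C.G × Bool // (Sum.inr x.1, x.2) ∈ C.wires g})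
    (P := fun x z => C.val z x.1.1 ↔ (!(xor x.1.2 (C.conj g))) = true)
    (by
      intro x
      apply C.sign_zero
      have := C.mono _ _ _ x.2
      have h2 : (C.lev x.1.1).val < (C.lev g).val := this
      have h3 : (C.lev g).val ≤ 1 := h1
      apply Fin.ext
      simp
      omega)
  refine (hi.and hg).congr ?_
  intro z
  rw [Circuit.Ov_iff, not_or]
  apply and_congr
  · push Not
    constructor
    · rintro h ⟨l, i, s, hm, rfl⟩
      have := h i s hm
      simp only
      cases hz : z i <;> cases hs : (xor s (C.conj g)) <;> simp_all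
    · intro h i s hm
      have := h ⟨_, i, s, hm, rfl⟩
      simp only at this
      rw [this]
      simp
  · constructor
    · rintro h ⟨⟨g', s⟩, hm⟩
      simp only
      have h2 : ¬ (C.val z g' ↔ (xor s (C.conj g)) = true) := fun h3 => h ⟨g', s, hm, h3⟩
      cases hs : (xor s (C.conj g)) <;> by_cases hv : C.val z g' <;> simp_all
    · rintro h ⟨g', s, hm, h3⟩
      have := h ⟨(g', s), hm⟩
      simp only at this
      cases hs : (xor s (C.conj g)) <;> by_cases hv : C.val z g' <;> simp_all

/-- Depth three circuits: the disjunctive side of the output gate is an OR of few CNFs. -/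
theorem Circuit.normal (C : Circuit I 3) :
    ∃ P : (I × Bool) ⊕ (C.G × Bool) → (I → Bool) → Prop,
      (∀ t, IsCnf C.B (P t)) ∧ ∀ z, C.Ov C.out z ↔ ∃ t, P t z := by
  let P : (I × Bool) ⊕ (C.G × Bool) → (I → Bool) → Prop := fun t z =>
    match t with
    | Sum.inl l => (∀ z', z' l.1 = l.2 → C.Ov C.out z') ∧ z l.1 = l.2
    | Sum.inr (g, true) => (C.lev g ≤ 1 ∧ ∀ z', ¬ C.Ov g z' → C.Ov C.out z') ∧ ¬ C.Ov g z
    | Sum.inr (g, false) => (C.lev g = 0 ∧ ∀ z', C.Ov g z' → C.Ov C.out z') ∧ C.Ov g z
  have key : ∀ (A : Prop) (Q : (I → Bool) → Prop), (A → IsCnf C.B Q) →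
      IsCnf C.B (fun z => A ∧ Q z) := by
    intro A Q hQ
    by_cases hA : A
    · exact (hQ hA).congr (fun z => by simp [hA])
    · exact IsCnf.no.congr (fun z => by simp [hA])
  refine ⟨P, ?_, ?_⟩
  · rintro (l | ⟨g, _ | _⟩)
    · exact key _ _ (fun _ => IsCnf.lit _ _)
    · refine key _ _ (fun h => ?_)
      exact (IsCnf.clause (B := C.B) (c := C.cl g) ⟨g, rfl⟩).congr (fun z => C.Ov_zero g h.1 z)
    · exact key _ _ (fun h => C.notOv_one g h.1)
  · intro z
    constructor
    · intro hz
      -- one step: a signed gate of level zero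
      have zero : ∀ (g : C.G) (b : Bool), C.lev g = 0 →
          (∀ z', (C.val z' g ↔ b = true) → C.Ov C.out z') → (C.val z g ↔ b = true) →
          ∃ t, P t z := by
        intro g b h0 himp hv
        by_cases hb : b = C.conj g
        · refine ⟨Sum.inr (g, true), ⟨⟨by rw [h0]; decide, ?_⟩, ?_⟩⟩
          · intro z' hz'
            apply himp
            unfold Circuit.Ov at hz'
            rw [hb]
            cases hc : C.conj g <;> by_cases hv' : C.val z' g <;> simp_all
          · unfold Circuit.Ov
            rw [hb] at hv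
            cases hc : C.conj g <;> by_cases hv' : C.val z g <;> simp_all
        · refine ⟨Sum.inr (g, false), ⟨⟨h0, ?_⟩, ?_⟩⟩
          · intro z' hz'
            apply himp
            unfold Circuit.Ov at hz'
            cases b <;> cases hc : C.conj g <;> by_cases hv' : C.val z' g <;> simp_all
          · unfold Circuit.Ov
            cases b <;> cases hc : C.conj g <;> by_cases hv' : C.val z g <;> simp_all
      have hz' := hz
      rw [Circuit.Ov_iff] at hz'
      rcases hz' with ⟨i, s, hm, hi⟩ | ⟨g, s, hm, hg⟩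
      · refine ⟨Sum.inl (i, xor s (C.conj C.out)), ⟨?_, hi⟩⟩
        intro z' hz'
        rw [Circuit.Ov_iff]
        exact Or.inl ⟨i, s, hm, hz'⟩
      · have himp : ∀ z', (C.val z' g ↔ xor s (C.conj C.out) = true) → C.Ov C.out z' := by
          intro z' hz'
          rw [Circuit.Ov_iff]
          exact Or.inr ⟨g, s, hm, hz'⟩
        have hlev : (C.lev g).val ≤ 1 := by
          have h1 : (C.lev g).val < (C.lev C.out).val := C.mono _ _ _ hm
          have h2 := (C.lev C.out).isLt
          omega
        by_cases h0 : C.lev g = 0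
        · exact zero g _ h0 himp hg
        · by_cases hb : xor s (C.conj C.out) = C.conj g
          · refine ⟨Sum.inr (g, true), ⟨⟨hlev, ?_⟩, ?_⟩⟩
            · intro z' hz'
              apply himp
              unfold Circuit.Ov at hz'
              rw [hb]
              cases hc : C.conj g <;> by_cases hv' : C.val z' g <;> simp_all
            · unfold Circuit.Ov
              rw [hb] at hg
              cases hc : C.conj g <;> by_cases hv' : C.val z g <;> simp_all
          · have hOg : ∀ z', C.Ov g z' → C.Ov C.out z' := by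
              intro z' hz'
              apply himp
              unfold Circuit.Ov at hz'
              cases hx : xor s (C.conj C.out) <;> cases hc : C.conj g <;>
                by_cases hv' : C.val z' g <;> simp_all
            have hOz : C.Ov g z := by
              unfold Circuit.Ov
              cases hx : xor s (C.conj C.out) <;> cases hc : C.conj g <;>
                by_cases hv' : C.val z g <;> simp_all
            rw [Circuit.Ov_iff] at hOz
            rcases hOz with ⟨i, s', hm', hi⟩ | ⟨g', s', hm', hg'⟩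
            · refine ⟨Sum.inl (i, xor s' (C.conj g)), ⟨?_, hi⟩⟩
              intro z' hz'
              apply hOg
              rw [Circuit.Ov_iff]
              exact Or.inl ⟨i, s', hm', hz'⟩
            · apply zero g' (xor s' (C.conj g)) _ _ hg'
              · have h1 : (C.lev g').val < (C.lev g).val := C.mono _ _ _ hm'
                apply Fin.ext
                simp
                omega
              · intro z' hz'
                apply hOg
                rw [Circuit.Ov_iff]
                exact Or.inr ⟨g', s', hm', hz'⟩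
    · rintro ⟨(l | ⟨g, _ | _⟩), ht⟩
      · exact ht.1 z ht.2
      · exact ht.1.2 z ht.2
      · exact ht.1.2 z ht.2

end Pool.Agent.H596R2.D3
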