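import Pool.Agent.H596R2.D3.Emb

/-!
Two embeddings into `k`-SAT.
-/

namespace Pool.Agent.H596R2.D3

open Finset Classical

/-- Variables of the first embedding: one-hot digits, chain variables, free bits. -/
abbrev V1 (r b : ℕ) : Type := (Bool × Fin r) ⊕ (Bool × Fin (r + 1)) ⊕ Fin b

/-- Position clauses of the first embedding. -/
noncomputable def cl1 (r b : ℕ) (q : ((Fin r × Fin r) × Fin b) × Bool) :
    Finset (V1 r b × Bool) :=
  {(Sum.inl (false, q.1.1.1), false), (Sum.inl (true, q.1.1.2), false),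
    (Sum.inr (Sum.inr q.1.2), !q.2)}

/-- Fixed clauses of the first embedding. -/
def fx1 (r b : ℕ) : Set (Finset (V1 r b × Bool)) :=
  {c | (∃ t : Bool, c = {(Sum.inr (Sum.inl (t, 0)), true)}) ∨
    (∃ (t : Bool) (d : Fin r), c = {(Sum.inr (Sum.inl (t, d.castSucc)), false),
      (Sum.inl (t, d), true), (Sum.inr (Sum.inl (t, d.succ)), true)}) ∨
    ∃ t : Bool, c = {(Sum.inr (Sum.inl (t, Fin.last r)), false)}}

theorem cl1_inj (r b : ℕ) : Function.Injective (cl1 r b) := by
  rintro ⟨⟨⟨i1, i2⟩, j⟩, l⟩ ⟨⟨⟨i1', i2'⟩, j'⟩, l'⟩ h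
  have m1 : ((Sum.inl (false, i1) : V1 r b), false) ∈ cl1 r b (((i1', i2'), j'), l') := by
    rw [← h]; simp [cl1]
  have m2 : ((Sum.inl (true, i2) : V1 r b), false) ∈ cl1 r b (((i1', i2'), j'), l') := by
    rw [← h]; simp [cl1]
  have m3 : ((Sum.inr (Sum.inr j) : V1 r b), !l) ∈ cl1 r b (((i1', i2'), j'), l') := by
    rw [← h]; simp [cl1]
  simp [cl1] at m1 m2 m3
  simp [m1, m2, m3]

theorem emb1 {n k r b : ℕ} (hk : 3 ≤ k) (hn : 4 * r + 2 + b ≤ n) :
    ∃ X : (((Fin r × Fin r) × Fin b) × Bool → Bool) → Clause n k → Bool, IsProj X ∧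
      ∀ w, ¬ Satisfiable (X w) ↔
        ∀ i, ∃ j, w ((i, j), false) = true ∧ w ((i, j), true) = true := by
  have hcard : Fintype.card (V1 r b) ≤ Fintype.card (Fin n) := by
    simp only [Fintype.card_sum, Fintype.card_prod, Fintype.card_bool, Fintype.card_fin]
    omega
  obtain ⟨f⟩ := Function.Embedding.nonempty_of_card_le hcard
  obtain ⟨X, hX, hsem⟩ := embed (k := k) f f.injective (fx1 r b) (cl1 r b)
    (by
      rintro c (⟨t, rfl⟩ | ⟨t, d, rfl⟩ | ⟨t, rfl⟩)
      · rw [card_singleton]; omega
      · exact card_le_three.trans hk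
      · rw [card_singleton]; omega)
    (fun q => card_le_three.trans hk) (cl1_inj r b) false
  refine ⟨X, hX, ?_⟩
  intro w
  rw [hsem]
  constructor
  · intro hns
    by_contra hcon
    push Not at hcon
    obtain ⟨i, hi⟩ := hcon
    have hl : ∀ j, ∃ l, w ((i, j), l) = false := by
      intro j
      cases h0 : w ((i, j), false)
      · exact ⟨_, h0⟩
      · have := hi j h0
        exact ⟨true, by simpa using this⟩
    choose y hy using hl
    apply hns
    refine ⟨fun v => match v with
      | Sum.inl (t, d) => decide (d = if t = true then i.2 else i.1)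
      | Sum.inr (Sum.inl (t, d)) => decide (d.val ≤ (if t = true then i.2 else i.1).val)
      | Sum.inr (Sum.inr j) => y j, ?_, ?_⟩
    · rintro c (⟨t, rfl⟩ | ⟨t, d, rfl⟩ | ⟨t, rfl⟩)
      · exact ⟨_, mem_singleton_self _, by simp⟩
      · by_cases h1 : d.val ≤ (if t = true then i.2 else i.1).val
        · by_cases h2 : d = if t = true then i.2 else i.1
          · exact ⟨(Sum.inl (t, d), true), by simp, by simp only [decide_eq_true_eq]; exact h2⟩
          · refine ⟨(Sum.inr (Sum.inl (t, d.succ)), true), by simp, ?_⟩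
            simp only [decide_eq_true_eq, Fin.val_succ]
            have : d.val ≠ (if t = true then i.2 else i.1).val := fun h => h2 (Fin.ext h)
            omega
        · refine ⟨(Sum.inr (Sum.inl (t, d.castSucc)), false), by simp, ?_⟩
          simp only [decide_eq_false_iff_not, Fin.val_castSucc]
          exact h1
      · refine ⟨_, mem_singleton_self _, ?_⟩
        simp only [decide_eq_false_iff_not, Fin.val_last, not_le]
        exact (if t = true then i.2 else i.1).isLt
    · rintro ⟨⟨⟨i1, i2⟩, j⟩, l⟩ hq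
      simp only [Bool.xor_false] at hq
      by_cases h1 : i1 = i.1
      · by_cases h2 : i2 = i.2
        · refine ⟨(Sum.inr (Sum.inr j), !l), by simp [cl1], ?_⟩
          simp only
          have h3 : (i1, i2) = i := by rw [h1, h2]
          rw [h3] at hq
          have h4 := hy j
          have h5 : y j ≠ l := by
            rintro rfl
            rw [hq] at h4
            exact absurd h4 (by simp)
          cases hh : y j <;> cases l <;> simp_all
        · exact ⟨(Sum.inl (true, i2), false), by simp [cl1], by simp [h2]⟩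
      · exact ⟨(Sum.inl (false, i1), false), by simp [cl1], by simp [h1]⟩
  · rintro hall ⟨x, hx1, hx2⟩
    have hdig : ∀ t : Bool, ∃ d : Fin r, x (Sum.inl (t, d)) = true := by
      intro t
      apply chain (fun d => x (Sum.inl (t, d))) (fun d => x (Sum.inr (Sum.inl (t, d))))
      · obtain ⟨l, hl, hxl⟩ := hx1 _ (Or.inl ⟨t, rfl⟩)
        rw [mem_singleton.mp hl] at hxl
        exact hxl
      · intro d
        obtain ⟨l, hl, hxl⟩ := hx1 _ (Or.inr (Or.inl ⟨t, d, rfl⟩))
        simp only [mem_insert, mem_singleton] at hl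
        rcases hl with rfl | rfl | rfl
        · exact Or.inl hxl
        · exact Or.inr (Or.inl hxl)
        · exact Or.inr (Or.inr hxl)
      · obtain ⟨l, hl, hxl⟩ := hx1 _ (Or.inr (Or.inr ⟨t, rfl⟩))
        rw [mem_singleton.mp hl] at hxl
        exact hxl
    obtain ⟨i1, h1⟩ := hdig false
    obtain ⟨i2, h2⟩ := hdig true
    obtain ⟨j, hj0, hj1⟩ := hall (i1, i2)
    have hq : w (((i1, i2), j), x (Sum.inr (Sum.inr j))) = true := by
      cases x (Sum.inr (Sum.inr j))
      · exact hj0
      · exact hj1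
    obtain ⟨l, hl, hxl⟩ := hx2 (((i1, i2), j), x (Sum.inr (Sum.inr j))) (by simpa using hq)
    simp only [cl1, mem_insert, mem_singleton] at hl
    rcases hl with rfl | rfl | rfl
    · simp only at hxl
      rw [h1] at hxl
      exact absurd hxl (by simp)
    · simp only at hxl
      rw [h2] at hxl
      exact absurd hxl (by simp)
    · simp only at hxl
      revert hxl
      cases x (Sum.inr (Sum.inr j)) <;> simp

/-- Variables of the second embedding: one-hot digits, chain variables, twins of digit zero. -/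
abbrev V2 (a m r : ℕ) : Type :=
  (Fin a × Fin (m + 1) × Fin r) ⊕ (Fin a × Fin (m + 1) × Fin (r + 1)) ⊕ (Fin a × Fin r)

/-- Position clauses of the second embedding. -/
noncomputable def cl2 (a m r : ℕ) (q : (Fin a × (Fin (m + 1) → Fin r)) × Bool) :
    Finset (V2 a m r × Bool) :=
  univ.image (fun t : Fin (m + 1) =>
    ((if t = 0 ∧ q.2 = true then Sum.inr (Sum.inr (q.1.1, q.1.2 0))
      else Sum.inl (q.1.1, t, q.1.2 t)), false))

/-- Fixed clauses of the second embedding. -/
def fx2 (a m r : ℕ) : Set (Finset (V2 a m r × Bool)) :=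
  {c | (∃ (i : Fin a) (t : Fin (m + 1)), c = {(Sum.inr (Sum.inl (i, t, 0)), true)}) ∨
    (∃ (i : Fin a) (t : Fin (m + 1)) (d : Fin r),
      c = {(Sum.inr (Sum.inl (i, t, d.castSucc)), false),
        (Sum.inl (i, t, d), true), (Sum.inr (Sum.inl (i, t, d.succ)), true)}) ∨
    (∃ (i : Fin a) (t : Fin (m + 1)), c = {(Sum.inr (Sum.inl (i, t, Fin.last r)), false)}) ∨
    ∃ (i : Fin a) (d : Fin r), c = {(Sum.inl (i, 0, d), false), (Sum.inr (Sum.inr (i, d)), true)}}

theorem cl2_inj (a m r : ℕ) (hm : 1 ≤ m) : Function.Injective (cl2 a m r) := by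
  rintro ⟨⟨i, d⟩, l⟩ ⟨⟨i', d'⟩, l'⟩ h
  have hmem : ∀ t : Fin (m + 1), ∃ t' : Fin (m + 1),
      (if t = 0 ∧ l = true then (Sum.inr (Sum.inr (i, d 0)) : V2 a m r)
        else Sum.inl (i, t, d t)) =
      (if t' = 0 ∧ l' = true then (Sum.inr (Sum.inr (i', d' 0)) : V2 a m r)
        else Sum.inl (i', t', d' t')) := by
    intro t
    have h1 : ((if t = 0 ∧ l = true then (Sum.inr (Sum.inr (i, d 0)) : V2 a m r)
        else Sum.inl (i, t, d t)), false) ∈ cl2 a m r ((i', d'), l') := by
      rw [← h]
      unfold cl2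
      exact mem_image.mpr ⟨t, mem_univ _, rfl⟩
    unfold cl2 at h1
    obtain ⟨t', _, ht'⟩ := mem_image.mp h1
    exact ⟨t', (Prod.mk.inj ht').1.symm⟩
  have hne : ∀ t : Fin (m + 1), t ≠ 0 → i = i' ∧ d t = d' t := by
    intro t ht
    obtain ⟨t', ht'⟩ := hmem t
    rw [if_neg (fun h => ht h.1)] at ht'
    split_ifs at ht' with h2
    · simp only [Sum.inl.injEq, Prod.mk.injEq] at ht'
      obtain ⟨h3, h4, h5⟩ := ht'
      rw [← h4] at h5
      exact ⟨h3, h5⟩
  have hi : i = i' := (hne ⟨1, by omega⟩ (by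
    intro h
    have := congrArg Fin.val h
    simp at this)).1
  obtain ⟨t', ht'⟩ := hmem 0
  have h0 : l = l' ∧ d 0 = d' 0 := by
    by_cases hl : l = true
    · rw [if_pos ⟨rfl, hl⟩] at ht'
      split_ifs at ht' with h2
      · simp only [Sum.inr.injEq, Prod.mk.injEq] at ht'
        exact ⟨by rw [h2.2, hl], ht'.2⟩
    · rw [if_neg (fun h => hl h.2)] at ht'
      split_ifs at ht' with h2
      · simp only [Sum.inl.injEq, Prod.mk.injEq] at ht'
        obtain ⟨h3, h4, h5⟩ := ht'
        rw [← h4] at h5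
        refine ⟨?_, h5⟩
        have : ¬ l' = true := fun h => h2 ⟨h4.symm, h⟩
        cases l <;> cases l' <;> simp_all
  have hd : d = d' := by
    funext t
    by_cases ht : t = 0
    · rw [ht]; exact h0.2
    · exact (hne t ht).2
  rw [hi, hd, h0.1]

theorem emb2 {n m a r : ℕ} (hm : 2 ≤ m)
    (hn : a * ((m + 1) * r) + (a * ((m + 1) * (r + 1)) + a * r) ≤ n) :
    ∃ X : ((Fin a × (Fin (m + 1) → Fin r)) × Bool → Bool) → Clause n (m + 1) → Bool,
      IsProj X ∧ ∀ w, Satisfiable (X w) ↔
        ∀ i, ∃ j, w ((i, j), false) = true ∧ w ((i, j), true) = true := by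
  have hcard : Fintype.card (V2 a m r) ≤ Fintype.card (Fin n) := by
    simp only [Fintype.card_sum, Fintype.card_prod, Fintype.card_fin]
    exact hn
  obtain ⟨f⟩ := Function.Embedding.nonempty_of_card_le hcard
  obtain ⟨X, hX, hsem⟩ := embed (k := m + 1) f f.injective (fx2 a m r) (cl2 a m r)
    (by
      rintro c (⟨i, t, rfl⟩ | ⟨i, t, d, rfl⟩ | ⟨i, t, rfl⟩ | ⟨i, d, rfl⟩)
      · rw [card_singleton]; omega
      · exact card_le_three.trans (by omega)
      · rw [card_singleton]; omega
      · exact card_le_two.trans (by omega))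
    (fun q => by
      unfold cl2
      refine card_image_le.trans ?_
      rw [card_univ, Fintype.card_fin])
    (cl2_inj a m r (by omega)) true
  refine ⟨X, hX, ?_⟩
  intro w
  rw [hsem]
  constructor
  · rintro ⟨x, hx1, hx2⟩ i
    have hdig : ∀ t : Fin (m + 1), ∃ d : Fin r, x (Sum.inl (i, t, d)) = true := by
      intro t
      apply chain (fun d => x (Sum.inl (i, t, d))) (fun d => x (Sum.inr (Sum.inl (i, t, d))))
      · obtain ⟨l, hl, hxl⟩ := hx1 _ (Or.inl ⟨i, t, rfl⟩)
        rw [mem_singleton.mp hl] at hxl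
        exact hxl
      · intro d
        obtain ⟨l, hl, hxl⟩ := hx1 _ (Or.inr (Or.inl ⟨i, t, d, rfl⟩))
        simp only [mem_insert, mem_singleton] at hl
        rcases hl with rfl | rfl | rfl
        · exact Or.inl hxl
        · exact Or.inr (Or.inl hxl)
        · exact Or.inr (Or.inr hxl)
      · obtain ⟨l, hl, hxl⟩ := hx1 _ (Or.inr (Or.inr (Or.inl ⟨i, t, rfl⟩)))
        rw [mem_singleton.mp hl] at hxl
        exact hxl
    choose J hJ using hdig
    have hy : x (Sum.inr (Sum.inr (i, J 0))) = true := by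
      obtain ⟨l, hl, hxl⟩ := hx1 _ (Or.inr (Or.inr (Or.inr ⟨i, J 0, rfl⟩)))
      simp only [mem_insert, mem_singleton] at hl
      rcases hl with rfl | rfl
      · simp only at hxl
        rw [hJ 0] at hxl
        exact absurd hxl (by simp)
      · exact hxl
    have hall : ∀ l, w ((i, J), l) = true := by
      intro l
      by_contra hl
      have hl' : w ((i, J), l) = false := by simpa using hl
      obtain ⟨l', hl2, hxl⟩ := hx2 ((i, J), l) (by rw [hl']; rfl)
      unfold cl2 at hl2
      obtain ⟨t, _, rfl⟩ := mem_image.mp hl2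
      simp only at hxl
      split_ifs at hxl with h
      · rw [hy] at hxl; exact absurd hxl (by simp)
      · rw [hJ t] at hxl; exact absurd hxl (by simp)
    exact ⟨J, hall false, hall true⟩
  · intro hall
    choose J hJ0 hJ1 using hall
    refine ⟨fun v => match v with
      | Sum.inl (i, t, d) => decide (d = J i t)
      | Sum.inr (Sum.inl (i, t, d)) => decide (d.val ≤ (J i t).val)
      | Sum.inr (Sum.inr (i, d)) => decide (d = J i 0), ?_, ?_⟩
    · rintro c (⟨i, t, rfl⟩ | ⟨i, t, d, rfl⟩ | ⟨i, t, rfl⟩ | ⟨i, d, rfl⟩)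
      · exact ⟨_, mem_singleton_self _, by simp⟩
      · by_cases h1 : d.val ≤ (J i t).val
        · by_cases h2 : d = J i t
          · exact ⟨(Sum.inl (i, t, d), true), by simp, by simp only [decide_eq_true_eq]; exact h2⟩
          · refine ⟨(Sum.inr (Sum.inl (i, t, d.succ)), true), by simp, ?_⟩
            simp only [decide_eq_true_eq, Fin.val_succ]
            have : d.val ≠ (J i t).val := fun h => h2 (Fin.ext h)
            omega
        · refine ⟨(Sum.inr (Sum.inl (i, t, d.castSucc)), false), by simp, ?_⟩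
          simp only [decide_eq_false_iff_not, Fin.val_castSucc]
          exact h1
      · refine ⟨_, mem_singleton_self _, ?_⟩
        simp only [decide_eq_false_iff_not, Fin.val_last, not_le]
        exact (J i t).isLt
      · by_cases h1 : d = J i 0
        · exact ⟨(Sum.inr (Sum.inr (i, d)), true), by simp, by simp [h1]⟩
        · exact ⟨(Sum.inl (i, 0, d), false), by simp, by simp [h1]⟩
    · rintro ⟨⟨i, j⟩, l⟩ hq
      have hw : w ((i, j), l) = false := by
        cases hh : w ((i, j), l) <;> simp_all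
      have hne : j ≠ J i := by
        rintro rfl
        cases l
        · rw [hJ0 i] at hw; exact absurd hw (by simp)
        · rw [hJ1 i] at hw; exact absurd hw (by simp)
      obtain ⟨t, ht⟩ := Function.ne_iff.mp hne
      refine ⟨_, mem_image.mpr ⟨t, mem_univ _, rfl⟩, ?_⟩
      simp only
      split_ifs with h
      · rw [h.1] at ht
        simp [ht]
      · simp [ht]

end Pool.Agent.H596R2.D3
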